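import Mathlib

set_option autoImplicit false

namespace Pool.Agent.H.MP_029391_gt

open Set Metric

section
variable {X Y : Type} [MetricSpace X] [MetricSpace Y]

def Corr (S : Set (X × Y)) : Prop := (∀ x, ∃ y, (x, y) ∈ S) ∧ ∀ y, ∃ x, (x, y) ∈ S

noncomputable def dis (S : Set (X × Y)) : ℝ :=
  sSup {r | ∃ p ∈ S, ∃ q ∈ S, r = |dist p.1 q.1 - dist p.2 q.2|}

noncomputable def dGH (X Y : Type) [MetricSpace X] [MetricSpace Y] : ℝ :=
  1 / 2 * sInf {r | ∃ S : Set (X × Y), Corr S ∧ r = dis S}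

def Opt (S : Set (X × Y)) : Prop := Corr S ∧ 1 / 2 * dis S = dGH X Y

lemma le_dis [Finite X] [Finite Y] {S : Set (X × Y)} {p q : X × Y} (hp : p ∈ S) (hq : q ∈ S) :
    |dist p.1 q.1 - dist p.2 q.2| ≤ dis S := by
  refine le_csSup ((finite_range fun z : (X × Y) × X × Y =>
    |dist z.1.1 z.2.1 - dist z.1.2 z.2.2|).bddAbove.mono ?_) ⟨p, hp, q, hq, rfl⟩
  exact fun _ ⟨p, _, q, _, h⟩ => ⟨(p, q), h.symm⟩

lemma dGH_le {S : Set (X × Y)} (h : Corr S) : dGH X Y ≤ 1 / 2 * dis S :=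
  mul_le_mul_of_nonneg_left (csInf_le ⟨0, fun _ ⟨_, _, h⟩ => h ▸ Real.sSup_nonneg
    fun _ ⟨_, _, _, _, h⟩ => h ▸ abs_nonneg _⟩ ⟨S, h, rfl⟩) (by norm_num)

lemma dis_le {S : Set (X × Y)} {c : ℝ} (hc : 0 ≤ c)
    (h : ∀ p ∈ S, ∀ q ∈ S, |dist p.1 q.1 - dist p.2 q.2| ≤ c) : dis S ≤ c :=
  Real.sSup_le (fun _ ⟨p, hp, q, hq, e⟩ => e ▸ h p hp q hq) hc

end

def m (p q : ℤ) : Fin 4 → Fin 4 → ℤ :=
  ![![0, 100, 140 + p, 170 + q], ![100, 0, 140 - p, 170 - q],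
    ![140 + p, 140 - p, 0, 200], ![170 + q, 170 - q, 200, 0]]

def d : Fin 3 → Fin 4 → Fin 4 → ℤ := ![m 2 0, m 1 2, m (-1) 2]

def X (_ : Fin 3) : Type := Fin 4

instance (i : Fin 3) : MetricSpace (X i) where
  dist x y := d i x y
  dist_self x := by exact_mod_cast (by decide : ∀ i x, d i x x = 0) i x
  dist_comm x y := by exact_mod_cast (by decide : ∀ i x y, d i x y = d i y x) i x y
  dist_triangle x y z := by
    exact_mod_cast (by decide +kernel : ∀ i x y z, d i x z ≤ d i x y + d i y z) i x y z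
  eq_of_dist_eq_zero {x y} h :=
    (by decide : ∀ i x y, d i x y = 0 → x = y) i x y (by exact_mod_cast h)

instance (i : Fin 3) : Finite (X i) := inferInstanceAs (Finite (Fin 4))
instance (i : Fin 3) : Nonempty (X i) := inferInstanceAs (Nonempty (Fin 4))

def σ : Fin 3 → Fin 4 → Fin 4 := ![id, id, ![1, 0, 2, 3]]

lemma key (i : Fin 3) {S : Set (X i × X (i + 1))} (h : Opt S) {p} (hp : p ∈ S) :
    p.2 = σ i p.1 := by
  classical
  have h0 : ∀ i x, σ i (σ i x) = x := by decide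
  have h1 : dis S ≤ 2 := by
    have h1 := dGH_le (X := X i) (Y := X (i + 1)) (S := {p | p.2 = σ i p.1})
      ⟨fun x => ⟨σ i x, rfl⟩, fun y => ⟨σ i y, (h0 i y).symm⟩⟩
    have h2 := dis_le (X := X i) (Y := X (i + 1)) (S := {p | p.2 = σ i p.1}) zero_le_two (by
      rintro ⟨x, _⟩ (rfl : _ = σ i x) ⟨y, _⟩ (rfl : _ = σ i y)
      change |(d i x y : ℝ) - d (i + 1) (σ i x) (σ i y)| ≤ 2
      exact_mod_cast (by decide : ∀ i x y, |d i x y - d (i + 1) (σ i x) (σ i y)| ≤ 2) i x y)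
    linarith [h.2]
  obtain ⟨f, h2, h3⟩ : ∃ f : Fin 4 → Fin 4, (∀ x, (x, f x) ∈ S) ∧ f p.1 = p.2 := by
    choose f hf using h.1.1
    refine ⟨Function.update f p.1 p.2, fun x => ?_, Function.update_self ..⟩
    by_cases hx : x = p.1
    · rw [hx, Function.update_self]
      exact hp
    · rw [Function.update_of_ne hx]
      exact hf x
  have h4 := (by decide +kernel : ∀ (i : Fin 3) (a b c e : Fin 4),
    (∀ x y, |d i x y - d (i + 1) (![a, b, c, e] x) (![a, b, c, e] y)| ≤ 2) →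
      ∀ x, ![a, b, c, e] x = σ i x) i (f 0) (f 1) (f 2) (f 3)
  have e : ![f 0, f 1, f 2, f 3] = f := by
    ext x
    fin_cases x <;> rfl
  rw [e] at h4
  refine h3 ▸ h4 (fun x y => ?_) _
  have : |(d i x y : ℝ) - d (i + 1) (f x) (f y)| ≤ 2 := (le_dis (h2 x) (h2 y)).trans h1
  exact_mod_cast this

theorem main (R : Set (∀ i, X i)) : ¬ ∀ i j, i ≠ j → Opt ((fun r => (r i, r j)) '' R) := by
  intro h
  obtain ⟨_, r, hr, e⟩ := (h 0 1 (by decide)).1.1 (0 : Fin 4)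
  have h1 (i) := key i (h i (i + 1) (by revert i; decide)) (mem_image_of_mem _ hr)
  have e0 : r 0 = (0 : Fin 4) := congrArg Prod.fst e
  have e1 : r 1 = (0 : Fin 4) := (h1 0).trans e0
  have e2 : r 2 = (0 : Fin 4) := (h1 1).trans e1
  have e3 : r 0 = σ 2 (r 2) := h1 2
  rw [e0, e2] at e3
  exact (by decide : (0 : Fin 4) ≠ σ 2 0) e3

end Pool.Agent.H.MP_029391_gt
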